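import Pool.Agent.X264.ES.Level

/-!
# The Eichler-Shimura conjecture for Hilbert newforms: reduction to level one
-/

set_option autoImplicit false

open Pool.Agent.X264.ES

namespace Pool.Agent.Results.MP_e1ffa3_nt.LevelOne

universe u

/-- **Reduction to level one.** The Eichler-Shimura conjecture for all totally real fields of even
degree and all newforms of a level which no prime divides exactly follows from the case of level `(1)`,
and there one may assume that `F` contains a given totally real field `L₀`, Galois over `ℚ` with
solvable group. -/
theorem result {Ω : Type u} [Field Ω] (W : Fields Ω) (hW : W.IsKnown)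
    (M : ∀ F, Models (W.sys F)) (hM : ∀ F, (M F).IsKnown) :
    (∀ F f, W.even F → W.cond F f → (M F).HasAssociated f) ↔
      ∀ F f, W.even F → W.above F → W.one F f → (M F).HasAssociated f :=
  Fields.level_associated hW M hM

end Pool.Agent.Results.MP_e1ffa3_nt.LevelOne
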